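import Pool.Agent.H629.GA

/-!
# The rational group algebra of the generic countable group is semiprimitive

`GroupSpace` is the space of the binary operations on `ℕ` which are group operations, with the
topology inherited from the product of discrete spaces. We show that for the comeager many `x` in
this space the Jacobson radical of the rational group algebra of the group `Car x` is zero.

Proof. Let `α` be a nonzero element of `ℚ[G]`. The group algebra of the restricted wreath product
`H` of a group of order two with `G` contains elements `c`, `d` such that `c α d` is a nonzero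
idempotent: if `1` is in the support of `α` let `e` be the product of the idempotents `(1 + b_1) / 2`
and `(1 - b_g) / 2`, where `g` runs through the other elements of the support and the `b_g` are the
involutions which generate the base group; then `e g e = 0` for these `g`, so `e α e` is a nonzero
multiple of `e`. The groups for which `ℚ[G]` contains such `c`, `d` form an open dense set. A nonzero
idempotent is not in the Jacobson radical.
-/

set_option autoImplicit false

namespace Pool.Agent.Results.MP_146d92_al.GenericSemiprimitive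

open MonoidAlgebra Topology Filter

/-- `(ℕ, m)` is a group. -/
def IsGroupOp (m : ℕ × ℕ → ℕ) : Prop :=
  (∀ a b c, m (m (a, b), c) = m (a, m (b, c))) ∧
    ∃ u, (∀ a, m (u, a) = a) ∧ ∀ a, ∃ b, m (b, a) = u

/-- The space of the group operations on `ℕ`, with the topology induced by the product topology on
`ℕ × ℕ → ℕ`, where `ℕ` is discrete. -/
abbrev GroupSpace : Type := {m : ℕ × ℕ → ℕ // IsGroupOp m}

/-- the underlying set of the group given by the operation `x` -/
def Car (_x : GroupSpace) : Type := ℕ

instance (x : GroupSpace) : Mul (Car x) := ⟨fun a b => x.1 (a, b)⟩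

noncomputable instance (x : GroupSpace) : One (Car x) := ⟨x.2.2.choose⟩

noncomputable instance (x : GroupSpace) : Inv (Car x) :=
  ⟨fun a => (x.2.2.choose_spec.2 a).choose⟩

/-- The group given by the operation `x`: its elements are the natural numbers, and the product of
`a` and `b` is `x (a, b)`. -/
noncomputable instance (x : GroupSpace) : Group (Car x) :=
  Group.ofLeftAxioms (fun a b c => x.2.1 a b c) (fun a => x.2.2.choose_spec.1 a)
    (fun a => (x.2.2.choose_spec.2 a).choose_spec)

/-! ### Multiplication of finitely supported functions -/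

/-- the product in the group algebra, as an operation on finitely supported functions -/
noncomputable def mulF (m : ℕ × ℕ → ℕ) (c d : ℕ →₀ ℚ) : ℕ →₀ ℚ :=
  c.sum fun a r => d.sum fun b s => Finsupp.single (m (a, b)) (r * s)

/-- an element of the group algebra -/
def el (x : GroupSpace) (c : ℕ →₀ ℚ) : MonoidAlgebra ℚ (Car x) := .ofCoeff c

theorem el_surj (x : GroupSpace) (c : MonoidAlgebra ℚ (Car x)) : ∃ c' : ℕ →₀ ℚ, el x c' = c :=
  ⟨c.coeff, rfl⟩

theorem el_inj (x : GroupSpace) {c d : ℕ →₀ ℚ} (h : el x c = el x d) : c = d :=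
  congrArg MonoidAlgebra.coeff h

theorem el_zero (x : GroupSpace) : el x 0 = 0 := rfl

theorem el_mul (x : GroupSpace) (c d : ℕ →₀ ℚ) : el x c * el x d = el x (mulF x.1 c d) := by
  rw [MonoidAlgebra.mul_def]
  apply MonoidAlgebra.coeff_injective
  rw [MonoidAlgebra.coeff_finsuppSum]
  show (c.sum fun a r => _) = c.sum fun a r => _
  refine Finsupp.sum_congr fun a _ => ?_
  rw [MonoidAlgebra.coeff_finsuppSum]
  rfl

/-- the set of the groups for which the ideal generated by `α` contains a nonzero idempotent of the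
form `c α d` -/
def U (α : ℕ →₀ ℚ) : Set GroupSpace :=
  {x | ∃ c d e : ℕ →₀ ℚ, e ≠ 0 ∧ mulF x.1 (mulF x.1 c α) d = e ∧ mulF x.1 e e = e}

theorem ev_mulF (x : GroupSpace) (c d : ℕ →₀ ℚ) :
    ∀ᶠ y : GroupSpace in 𝓝 x, mulF y.1 c d = mulF x.1 c d := by
  have h1 : ∀ a b : ℕ, ∀ᶠ y : GroupSpace in 𝓝 x, y.1 (a, b) = x.1 (a, b) := by
    intro a b
    have hc : Continuous fun y : GroupSpace => y.1 (a, b) :=
      (continuous_apply (a, b)).comp continuous_subtype_val
    exact hc.continuousAt.eventually (IsOpen.mem_nhds (isOpen_discrete {x.1 (a, b)}) rfl)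
  have h2 : ∀ᶠ y : GroupSpace in 𝓝 x, ∀ a ∈ c.support, ∀ b ∈ d.support,
      y.1 (a, b) = x.1 (a, b) := by
    rw [Filter.eventually_all_finset]
    intro a _
    rw [Filter.eventually_all_finset]
    intro b _
    exact h1 a b
  filter_upwards [h2] with y hy
  refine Finset.sum_congr rfl fun a ha => Finset.sum_congr rfl fun b hb => ?_
  show Finsupp.single (y.1 (a, b)) _ = Finsupp.single (x.1 (a, b)) _
  rw [hy a ha b hb]

theorem isOpen_U (α : ℕ →₀ ℚ) : IsOpen (U α) := by
  rw [isOpen_iff_mem_nhds]
  rintro x ⟨c, d, e, he, h1, h2⟩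
  filter_upwards [ev_mulF x c α, ev_mulF x (mulF x.1 c α) d, ev_mulF x e e] with y h3 h4 h5
  refine ⟨c, d, e, he, ?_, ?_⟩
  · rw [h3, h4, h1]
  · rw [h5, h2]

/-- a countable group containing the group given by `x`, transported to `ℕ` so that finitely many
elements of `ℕ` are not moved -/
theorem exists_copy (x : GroupSpace) (H : Type) [Group H] [Countable H] (ι : Car x →* H)
    (hι : Function.Injective ι) (A : Finset ℕ) :
    ∃ (y : GroupSpace) (ψ : H ≃* Car y), ∀ a : ℕ, a ∈ A → ψ (ι a) = a := by
  have hInf : Infinite H := Infinite.of_injective (fun n : ℕ => ι (n : Car x)) hι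
  obtain ⟨e0⟩ : Nonempty (ℕ ≃ H) := nonempty_equiv_of_countable
  let f : (A : Set ℕ) ↪ H := ⟨fun a => ι (a.1 : Car x), fun a b h => Subtype.ext (hι h)⟩
  obtain ⟨g, hg⟩ := Cardinal.extend_function_of_lt f (by
    rw [Cardinal.mk_nat]
    exact Cardinal.lt_aleph0_of_finite _) ⟨e0⟩
  let m : ℕ × ℕ → ℕ := fun p => g.symm (g p.1 * g p.2)
  have hm : IsGroupOp m := by
    refine ⟨fun a b c => ?_, g.symm 1, fun a => ?_, fun a => ⟨g.symm (g a)⁻¹, ?_⟩⟩
    · show g.symm (g (g.symm (g a * g b)) * g c) = g.symm (g a * g (g.symm (g b * g c)))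
      rw [g.apply_symm_apply, g.apply_symm_apply, mul_assoc]
    · show g.symm (g (g.symm 1) * g a) = a
      rw [g.apply_symm_apply, one_mul, g.symm_apply_apply]
    · show g.symm (g (g.symm (g a)⁻¹) * g a) = g.symm 1
      rw [g.apply_symm_apply, inv_mul_cancel]
  refine ⟨⟨m, hm⟩, ⟨g.symm, fun p q => ?_⟩, fun a ha => ?_⟩
  · show g.symm (p * q) = g.symm (g (g.symm p) * g (g.symm q))
    rw [g.apply_symm_apply, g.apply_symm_apply]
  · show g.symm (ι (a : Car x)) = a
    rw [Equiv.symm_apply_eq]
    exact (hg ⟨a, ha⟩).symm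

theorem mapDomain_fix {f : ℕ → ℕ} {α : ℕ →₀ ℚ} (h : ∀ a ∈ α.support, f a = a) :
    Finsupp.mapDomain f α = α := by
  conv_rhs => rw [← Finsupp.mapDomain_id (v := α)]
  exact Finsupp.mapDomain_congr h

theorem dense_U (α : ℕ →₀ ℚ) (hα : α ≠ 0) : Dense (U α) := by
  classical
  rw [dense_iff_inter_open]
  rintro O hO ⟨x, hx⟩
  obtain ⟨O', hO', rfl⟩ := isOpen_induced_iff.1 hO
  obtain ⟨I, u, hu, hIu⟩ := isOpen_pi_iff.1 hO' x.1 hx
  let A : Finset ℕ := I.image Prod.fst ∪ I.image Prod.snd ∪ I.image x.1 ∪ α.support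
  have hinj : Function.Injective (SemidirectProduct.inr : Car x →* H629.GA.HH (Car x)) :=
    SemidirectProduct.inr_injective
  have hc : Countable (Car x) := inferInstanceAs (Countable ℕ)
  obtain ⟨y, ψ, hψ⟩ := exists_copy x (H629.GA.HH (Car x)) SemidirectProduct.inr hinj A
  -- the operation agrees with `x` on `I`
  have hy : ∀ p ∈ I, y.1 p = x.1 p := by
    intro p hp
    have hp1 : p.1 ∈ A := by
      simp only [A, Finset.mem_union, Finset.mem_image]
      exact Or.inl (Or.inl (Or.inl ⟨p, hp, rfl⟩))
    have hp2 : p.2 ∈ A := by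
      simp only [A, Finset.mem_union, Finset.mem_image]
      exact Or.inl (Or.inl (Or.inr ⟨p, hp, rfl⟩))
    have hp3 : x.1 p ∈ A := by
      simp only [A, Finset.mem_union, Finset.mem_image]
      exact Or.inl (Or.inr ⟨p, hp, rfl⟩)
    have key : ∀ a b : Car x, ψ (SemidirectProduct.inr (a * b)) =
        ψ (SemidirectProduct.inr a) * ψ (SemidirectProduct.inr b) := by
      intro a b
      rw [map_mul, map_mul]
    have h1 : ψ (SemidirectProduct.inr (show Car x from p.1)) = (show Car y from p.1) :=
      hψ p.1 hp1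
    have h2 : ψ (SemidirectProduct.inr (show Car x from p.2)) = (show Car y from p.2) :=
      hψ p.2 hp2
    have h3 : ψ (SemidirectProduct.inr ((show Car x from p.1) * (show Car x from p.2))) =
        (show Car y from x.1 p) := hψ (x.1 p) hp3
    rw [key, h1, h2] at h3
    exact h3
  refine ⟨y, hIu ?_, ?_⟩
  · intro p hp
    rw [hy p hp]
    exact (hu p hp).2
  · have hαx : el x α ≠ 0 := fun h => hα (el_inj x h)
    obtain ⟨c, d, e, h1, h2, h3⟩ := H629.GA.main (Car x) (el x α) hαx
    let Ψ : MonoidAlgebra ℚ (H629.GA.HH (Car x)) →+* MonoidAlgebra ℚ (Car y) :=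
      MonoidAlgebra.mapDomainRingHom ℚ (ψ : H629.GA.HH (Car x) →* Car y)
    have hΨ : Function.Injective Ψ := MonoidAlgebra.mapDomain_injective ψ.injective
    have hΨα : Ψ (H629.GA.R (el x α)) = el y α := by
      apply MonoidAlgebra.coeff_injective
      refine (Finsupp.mapDomain_comp (v := (show Car x →₀ ℚ from α))
        (f := (SemidirectProduct.inr : Car x →* H629.GA.HH (Car x))) (g := ψ)).symm.trans ?_
      refine mapDomain_fix (f := fun a : ℕ => ψ (SemidirectProduct.inr (show Car x from a)))
        fun a ha => ?_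
      exact hψ a (by
        simp only [A, Finset.mem_union]
        exact Or.inr ha)
    obtain ⟨c', hc'⟩ := el_surj y (Ψ c)
    obtain ⟨d', hd'⟩ := el_surj y (Ψ d)
    obtain ⟨e', he'⟩ := el_surj y (Ψ e)
    refine ⟨c', d', e', ?_, ?_, ?_⟩
    · rintro rfl
      rw [el_zero] at he'
      exact h3 (hΨ (by rw [← he', map_zero]))
    · apply el_inj y
      rw [← el_mul, ← el_mul, hc', hd', he', ← hΨα, ← map_mul, ← map_mul, h1]
    · apply el_inj y
      rw [← el_mul, he', ← map_mul, h2]

theorem radical_eq_bot (x : GroupSpace) (hx : ∀ α : ℕ →₀ ℚ, α ≠ 0 → x ∈ U α) :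
    Ring.jacobson (MonoidAlgebra ℚ (Car x)) = ⊥ := by
  rw [eq_bot_iff]
  intro α hα
  rw [Ideal.mem_bot]
  by_contra hne
  obtain ⟨a, rfl⟩ := el_surj x α
  obtain ⟨c, d, e, he, h1, h2⟩ := hx a (by
    rintro rfl
    exact hne rfl)
  have h3 : el x e ∈ Ring.jacobson (MonoidAlgebra ℚ (Car x)) := by
    rw [← h1, ← el_mul, ← el_mul]
    exact Ideal.mul_mem_right _ _ (Ideal.mul_mem_left _ _ hα)
  rw [← Ideal.jacobson_bot, Ideal.mem_jacobson_iff] at h3
  obtain ⟨z, hz⟩ := h3 (-1)
  rw [Ideal.mem_bot] at hz
  have h4 : el x e * el x e = el x e := by rw [el_mul, h2]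
  have h5 : z * (1 - el x e) = 1 := by
    have : z * -1 * el x e + z - 1 = z * (1 - el x e) - 1 := by noncomm_ring
    rw [this] at hz
    exact sub_eq_zero.1 hz
  have h6 : el x e = 0 := by
    calc el x e = 1 * el x e := (one_mul _).symm
      _ = z * (1 - el x e) * el x e := by rw [h5]
      _ = z * (el x e - el x e * el x e) := by noncomm_ring
      _ = 0 := by rw [h4, sub_self, mul_zero]
  exact he (el_inj x h6)

/-- **Theorem.** The set of the group operations `x` on `ℕ` for which the Jacobson radical of the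
rational group algebra of the group `(ℕ, x)` is zero is comeager in the space of all group
operations on `ℕ`. -/
theorem result :
    {x : GroupSpace | Ring.jacobson (MonoidAlgebra ℚ (Car x)) = ⊥} ∈ residual GroupSpace := by
  have h1 : ∀ α : {α : ℕ →₀ ℚ // α ≠ 0}, U α.1 ∈ residual GroupSpace := fun α =>
    residual_of_dense_open (isOpen_U α.1) (dense_U α.1 α.2)
  have h2 : (⋂ α : {α : ℕ →₀ ℚ // α ≠ 0}, U α.1) ∈ residual GroupSpace :=
    countable_iInter_mem.2 h1
  refine Filter.mem_of_superset h2 fun x hx => ?_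
  rw [Set.mem_iInter] at hx
  exact radical_eq_bot x fun α hα => hx ⟨α, hα⟩

end Pool.Agent.Results.MP_146d92_al.GenericSemiprimitive
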